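import Pool.Agent.LE.StmtsQG

/-! # GOD: a point with `U < 1` is good -/

set_option autoImplicit false

open MeasureTheory ProbabilityTheory Function Filter

open scoped ENNReal BigOperators Topology NNReal ComplexOrder Matrix

noncomputable section

namespace Pool.Agent.LE.QF.H5

open Pool.Agent.Anderson hiding box mem_box card_box
open Pool.Agent.Loc Pool.Agent.Mob Pool.Agent.Helper54.Bal
  Pool.Agent.Helper96.EXP Pool.Agent.BED
open Pool.Agent.LE.MN Pool.Agent.LE.CL Pool.Agent.LE.IR Pool.Agent.LE.QD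

section Gen

variable {X : Type} [Fintype X]

theorem n2_nn (f : X → ℂ) : 0 ≤ n2 f := Finset.sum_nonneg fun _ _ => by positivity

theorem n2_dot (f : X → ℂ) : (star f ⬝ᵥ f) = (n2 f : ℂ) := by
  simp only [dotProduct, n2, Pi.star_apply, Complex.ofReal_sum]
  refine Finset.sum_congr rfl fun x _ => ?_
  rw [Complex.star_def, ← Complex.normSq_eq_conj_mul_self, Complex.normSq_eq_norm_sq]

theorem cs (f g : X → ℂ) : ‖star f ⬝ᵥ g‖ ^ 2 ≤ n2 f * n2 g := by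
  have h1 : ‖star f ⬝ᵥ g‖ ≤ ∑ x, ‖f x‖ * ‖g x‖ := by
    refine (norm_sum_le _ _).trans (Finset.sum_le_sum fun x _ => ?_)
    rw [norm_mul, Pi.star_apply, norm_star]
  have h2 : (∑ x, ‖f x‖ * ‖g x‖) ^ 2 ≤ (∑ x, ‖f x‖ ^ 2) * ∑ x, ‖g x‖ ^ 2 :=
    Finset.sum_mul_sq_le_sq_mul_sq _ _ _
  exact (pow_le_pow_left₀ (norm_nonneg _) h1 2).trans h2

/-- the norm of the adjoint -/
theorem n2_adj (Y : Matrix X X ℂ) (c : ℝ) (h : ∀ u, n2 (Y *ᵥ u) ≤ c ^ 2 * n2 u)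
    (u : X → ℂ) : n2 (Yᴴ *ᵥ u) ≤ c ^ 2 * n2 u := by
  have h1 : (n2 (Yᴴ *ᵥ u) : ℂ) = star u ⬝ᵥ (Y *ᵥ (Yᴴ *ᵥ u)) := by
    rw [← n2_dot, Matrix.star_mulVec, Matrix.conjTranspose_conjTranspose,
      ← Matrix.dotProduct_mulVec]
  have h2 := cs u (Y *ᵥ (Yᴴ *ᵥ u))
  rw [← h1, Complex.norm_real, Real.norm_eq_abs, sq_abs] at h2
  have h3 := h (Yᴴ *ᵥ u)
  have h4 := n2_nn u
  have h5 := n2_nn (Yᴴ *ᵥ u)
  by_contra h6
  push Not at h6
  have h7 : n2 (Yᴴ *ᵥ u) ^ 2 ≤ n2 u * (c ^ 2 * n2 (Yᴴ *ᵥ u)) :=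
    h2.trans (mul_le_mul_of_nonneg_left h3 h4)
  have h8 : 0 < n2 (Yᴴ *ᵥ u) := lt_of_le_of_lt (by positivity) h6
  nlinarith

theorem entry_le (f : X → ℂ) (x : X) : ‖f x‖ ^ 2 ≤ n2 f :=
  Finset.single_le_sum (f := fun x => ‖f x‖ ^ 2) (fun _ _ => by positivity) (Finset.mem_univ x)

variable [DecidableEq X]

/-- the norm from the trace of a high power -/
theorem n2_tr (Y : Matrix X X ℂ) (c : ℝ) (j : ℕ) (hc : 0 ≤ c) (hj : 1 ≤ j)
    (h : (Matrix.trace ((Y * Yᴴ) ^ j)).re ≤ c ^ (2 * j)) (u : X → ℂ) :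
    n2 (Y *ᵥ u) ≤ c ^ 2 * n2 u := by
  have hP : (Y * Yᴴ).PosSemidef := Matrix.posSemidef_self_mul_conjTranspose Y
  have hH := hP.1
  set U := hH.eigenvectorUnitary with hU
  have h1 : (Y * Yᴴ) = Unitary.conjStarAlgAut ℂ _ U
      (Matrix.diagonal (RCLike.ofReal ∘ hH.eigenvalues)) := hH.spectral_theorem
  have h0 : ∀ i, 0 ≤ hH.eigenvalues i := fun i => hP.eigenvalues_nonneg i
  have h2 : Matrix.trace ((Y * Yᴴ) ^ j) = ∑ i, ((hH.eigenvalues i : ℂ)) ^ j := by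
    have h2' : (Y * Yᴴ) ^ j = Unitary.conjStarAlgAut ℂ _ U
        ((Matrix.diagonal (RCLike.ofReal ∘ hH.eigenvalues)) ^ j) := by
      rw [map_pow, ← h1]
    rw [h2', Unitary.conjStarAlgAut_apply, Matrix.trace_mul_comm, ← mul_assoc]
    have h3 : (star (U : Matrix X X ℂ)) * (U : Matrix X X ℂ) = 1 := Unitary.coe_star_mul_self U
    rw [h3, one_mul, Matrix.diagonal_pow, Matrix.trace_diagonal]
    rfl
  have h3 : (Matrix.trace ((Y * Yᴴ) ^ j)).re = ∑ i, (hH.eigenvalues i) ^ j := by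
    rw [h2]
    rw [← Complex.ofReal_re (∑ i, (hH.eigenvalues i) ^ j)]
    push_cast
    rfl
  have h4 : ∀ i, hH.eigenvalues i ≤ c ^ 2 := by
    intro i
    have h5 : hH.eigenvalues i ^ j ≤ ∑ i, (hH.eigenvalues i) ^ j :=
      Finset.single_le_sum (f := fun i => hH.eigenvalues i ^ j)
        (fun i _ => pow_nonneg (h0 i) j) (Finset.mem_univ i)
    have h6 : hH.eigenvalues i ^ j ≤ (c ^ 2) ^ j := by
      rw [← pow_mul]
      exact h5.trans (h3 ▸ h)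
    exact le_of_pow_le_pow_left₀ (by omega) (by positivity) h6
  have h5 : (((c ^ 2 : ℝ) : ℂ) • (1 : Matrix X X ℂ) - Y * Yᴴ).PosSemidef := by
    have h6 : ((c ^ 2 : ℝ) : ℂ) • (1 : Matrix X X ℂ) - Y * Yᴴ =
        (U : Matrix X X ℂ) * Matrix.diagonal (fun i => ((c ^ 2 - hH.eigenvalues i : ℝ) : ℂ)) *
          (U : Matrix X X ℂ)ᴴ := by
      have h7 : Matrix.diagonal (fun i => ((c ^ 2 - hH.eigenvalues i : ℝ) : ℂ)) =
          ((c ^ 2 : ℝ) : ℂ) • (1 : Matrix X X ℂ) -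
            Matrix.diagonal (RCLike.ofReal ∘ hH.eigenvalues) := by
        rw [← Matrix.diagonal_one, ← Matrix.diagonal_smul, Matrix.diagonal_sub]
        ext a b
        by_cases hab : a = b
        · subst hab
          simp
        · simp [hab]
      rw [h7, mul_sub, sub_mul]
      have h8 : (U : Matrix X X ℂ) * (U : Matrix X X ℂ)ᴴ = 1 := Unitary.coe_mul_star_self U
      rw [mul_smul_comm, smul_mul_assoc, mul_one, h8]
      congr 1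
    rw [h6]
    refine Matrix.PosSemidef.mul_mul_conjTranspose_same ?_ _
    refine Matrix.PosSemidef.diagonal ?_
    intro i
    have := h4 i
    simp only [Pi.zero_apply]
    exact_mod_cast sub_nonneg.2 this
  have h6 : ∀ v, n2 (Yᴴ *ᵥ v) ≤ c ^ 2 * n2 v := by
    intro v
    have h7 := h5.dotProduct_mulVec_nonneg v
    rw [Matrix.sub_mulVec, Matrix.smul_mulVec, Matrix.one_mulVec, dotProduct_sub,
      dotProduct_smul, n2_dot, ← Matrix.mulVec_mulVec] at h7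
    have h8 : star v ⬝ᵥ (Y *ᵥ (Yᴴ *ᵥ v)) = (n2 (Yᴴ *ᵥ v) : ℂ) := by
      rw [← n2_dot, Matrix.star_mulVec, Matrix.conjTranspose_conjTranspose,
        ← Matrix.dotProduct_mulVec]
    rw [h8, smul_eq_mul, sub_nonneg] at h7
    exact_mod_cast h7
  have h7 := n2_adj Yᴴ c h6 u
  rwa [Matrix.conjTranspose_conjTranspose] at h7

theorem unit_of (Y : Matrix X X ℂ) (c : ℝ) (hc : 0 ≤ c) (hc1 : c < 1)
    (h : ∀ u, n2 (Y *ᵥ u) ≤ c ^ 2 * n2 u) : IsUnit (1 - Y).det := by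
  rw [isUnit_iff_ne_zero]
  intro h0
  obtain ⟨v, hv, hv0⟩ := Matrix.exists_mulVec_eq_zero_iff.2 h0
  rw [Matrix.sub_mulVec, Matrix.one_mulVec, sub_eq_zero] at hv0
  have h1 := h v
  rw [← hv0] at h1
  have h2 : 0 < n2 v := by
    obtain ⟨x, hx⟩ := Function.ne_iff.1 hv
    have h3 := entry_le v x
    have h4 : 0 < ‖v x‖ := norm_pos_iff.2 hx
    have : 0 < ‖v x‖ ^ 2 := by positivity
    linarith
  have h3 : c ^ 2 < 1 := by nlinarith
  nlinarith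

theorem GdM.mono {G : Matrix X X ℂ} {μ : X → ℂ} {𝒩 : X → Finset X} {κ τ δ N C' C : ℝ}
    (h : GdM G μ 𝒩 κ τ δ N C') (h1 : C' ≤ C) (h2 : C * δ ≤ 1 / 2) : GdM G μ 𝒩 κ τ δ N C := by
  obtain ⟨k1, k2, k3, k4, k5⟩ := h.hκ
  have hd := h.hδ.1
  have h3 : C' * δ ≤ C * δ := mul_le_mul_of_nonneg_right h1 hd
  refine ⟨⟨k1, k2, k3, k4.trans (mul_le_mul_of_nonneg_right h1 k3.le),
    k5.trans (mul_le_mul_of_nonneg_right h1 k1.le)⟩, ⟨hd, h2, h.hδ.2.2⟩, h.hs, h.hw,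
    fun a => (h.hk a).trans h3, fun a => (h.hμ a).trans h3, fun a b => (h.hG a b).trans h1,
    fun a b => ⟨(h.hn a b).1, fun hab => ((h.hn a b).2 hab).trans h3⟩, h.hN⟩

theorem qf_add (A B : Matrix X X ℝ) (f : X → ℝ) : qf (A + B) f = qf A f + qf B f := by
  simp only [qf, Matrix.add_mulVec, Pi.add_apply, mul_add, Finset.sum_add_distrib]

theorem qf_smul (t : ℝ) (A : Matrix X X ℝ) (f : X → ℝ) : qf (t • A) f = t * qf A f := by
  simp only [qf, Matrix.smul_mulVec, Pi.smul_apply, smul_eq_mul, Finset.mul_sum]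
  exact Finset.sum_congr rfl fun x _ => by ring

theorem qf_one (f : X → ℝ) : qf (1 : Matrix X X ℝ) f = ∑ a, f a ^ 2 := by
  simp only [qf, Matrix.one_mulVec]
  exact Finset.sum_congr rfl fun x _ => by ring

theorem qf_P0 (f : X → ℝ) : qf (P0 X) f = (Fintype.card X : ℝ)⁻¹ * (∑ a, f a) ^ 2 := by
  simp only [qf, P0, Matrix.mulVec, dotProduct]
  rw [← Finset.sum_mul, sq, ← Finset.mul_sum]
  ring

theorem qf_Dl (K : Matrix X X ℝ) (f : X → ℝ) :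
    qf (Dl K) f = (∑ a, (∑ b, K a b) * f a ^ 2) - qf K f := by
  simp only [qf, Dl, Matrix.sub_mulVec, Pi.sub_apply, Matrix.mulVec_diagonal, mul_sub,
    Finset.sum_sub_distrib]
  congr 1
  exact Finset.sum_congr rfl fun x _ => by ring

theorem Dl_symm (K : Matrix X X ℝ) (h : ∀ a b, K a b = K b a) (a b : X) : Dl K a b = Dl K b a := by
  by_cases hab : a = b
  · subst hab; rfl
  · simp [Dl, hab, Ne.symm hab, h a b]

theorem Dl_nonneg (K : Matrix X X ℝ) (h : ∀ a b, K a b = K b a) (h0 : ∀ a b, 0 ≤ K a b)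
    (f : X → ℝ) : 0 ≤ qf (Dl K) f := by
  have h1 : (∑ a, ∑ b, K a b * (f a - f b) ^ 2) = 2 * qf (Dl K) f := by
    rw [qf_Dl]
    have h2 : ∀ a b, K a b * (f a - f b) ^ 2 =
        K a b * f a ^ 2 + K a b * f b ^ 2 - 2 * (f a * (K a b * f b)) := fun a b => by ring
    simp only [h2, Finset.sum_sub_distrib, Finset.sum_add_distrib]
    have h3 : ∑ a, ∑ b, K a b * f b ^ 2 = ∑ a, ∑ b, K a b * f a ^ 2 := by
      rw [Finset.sum_comm]
      exact Finset.sum_congr rfl fun a _ => Finset.sum_congr rfl fun b _ => by rw [h b a]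
    rw [h3]
    simp only [qf, Matrix.mulVec, dotProduct, ← Finset.mul_sum, Finset.sum_mul]
    ring
  have h2 : 0 ≤ ∑ a, ∑ b, K a b * (f a - f b) ^ 2 :=
    Finset.sum_nonneg fun a _ => Finset.sum_nonneg fun b _ => mul_nonneg (h0 a b) (sq_nonneg _)
  linarith

end Gen

variable {d M : ℕ} [NeZero M]

theorem card_tor : (Fintype.card (Tor d M) : ℝ) = (M : ℝ) ^ d := by
  simp [Tor, ZMod.card]

theorem kp_pos {D : Dat d M} {c₁ C₁ c₀ : ℝ} {k₀ : ℕ} (hc₁ : 0 < c₁) (hA : Adm D c₁ C₁ c₀ k₀)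
    {t : ℝ} (ht : t ≤ D.T) : D.η ≤ D.kp t := by
  have h1 : 0 ≤ (D.T - t) * D.m.im :=
    mul_nonneg (sub_nonneg.2 ht) (hc₁.le.trans hA.hm.1)
  simp only [Dat.kp]
  linarith

theorem Adm.mono {D : Dat d M} {c₁ C₁ c₀ c : ℝ} {k₀ : ℕ} (hA : Adm D c₁ C₁ c k₀) (h : c ≤ c₀) :
    Adm D c₁ C₁ c₀ k₀ :=
  ⟨hA.hT, hA.hm, hA.hfix, ⟨hA.hδ.1, hA.hδ.2.1, hA.hδ.2.2.trans h⟩, hA.hk, hA.he, hA.hj, hA.h0, hA.hN,
    hA.hY, hA.hL, hA.hS, hA.hP, hA.hϖ, hA.hW⟩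

theorem lt_one_of_pow_sum {κ : Type} [Fintype κ] (x : κ → ℝ) (n : ℕ)
    (h0 : ∀ k, 0 ≤ x k) (h : ∑ k, x k ^ n < 1) (k : κ) : x k < 1 := by
  have h1 : x k ^ n ≤ ∑ k, x k ^ n :=
    Finset.single_le_sum (f := fun k => x k ^ n) (fun k _ => pow_nonneg (h0 k) n)
      (Finset.mem_univ k)
  by_contra h2
  push Not at h2
  have := one_le_pow₀ (n := n) h2
  linarith

theorem god (hN : NnuStmt) (hR : RsjStmt) (hC : GdcStmt) (hT : ThbStmt) (hW : WabStmt) :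
    GodStmt := by
  intro c₁ C₁ k₀ hc₁ hC₁
  obtain ⟨c', C', hc'0, hc'2, hC'1, hgdc⟩ := hC c₁ C₁ hc₁ hC₁
  have hk0 : (0 : ℝ) ≤ k₀ := Nat.cast_nonneg _
  have hc1i : 0 < 1 / c₁ := by positivity
  obtain ⟨C₀, hC₀⟩ : ∃ C₀ : ℝ, C₀ = C' + C₁ + 1 / c₁ + 2 * k₀ + 2 := ⟨_, rfl⟩
  have hC₀1 : 1 ≤ C₀ := by rw [hC₀]; linarith
  obtain ⟨c₀, hc₀⟩ : ∃ c₀ : ℝ, c₀ = min c' (1 / (2 * C₀ * (k₀ + 1))) := ⟨_, rfl⟩
  have hc₀0 : 0 < c₀ := by rw [hc₀]; positivity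
  have hc₀c : c₀ ≤ c' := hc₀ ▸ min_le_left _ _
  have hc₀C : C₀ * c₀ * (k₀ + 1) ≤ 1 / 2 := by
    have h1 : c₀ ≤ 1 / (2 * C₀ * (k₀ + 1)) := hc₀ ▸ min_le_right _ _
    rw [le_div_iff₀ (by positivity)] at h1
    linarith
  refine ⟨c₀, C₀, hc₀0, hc₀c.trans hc'2, hC₀1, ?_⟩
  intro d M _ D q hA hq0 hqT hU
  have hkp := kp_pos hc₁ hA hqT
  have hη := hA.hT.2.1
  have hkp0 : 0 < D.kp q.1 := lt_of_lt_of_le hη hkp
  obtain ⟨hu1, hu2, hu3, hu4, hu5⟩ := hN d M D c₁ C₁ c₀ k₀ q hc₁ hA hkp0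
  obtain ⟨hJ, hward, hG0s, hkt, hkw, -, -⟩ := hR d M D c₁ C₁ c₀ k₀ q hc₁ hA hkp0
  obtain ⟨-, hkpw⟩ := hkw hq0 hqT
  have hU' : D.U1 q + D.U2 q + D.U3 q + D.U4 q + D.U5 q < 1 := hU
  have hm0 : 0 < D.m.im := lt_of_lt_of_le hc₁ hA.hm.1
  have hδ0 := hA.hδ.1
  have hδc : D.δ ≤ c₀ := hA.hδ.2.1.trans hA.hδ.2.2
  have hε0 : 0 < D.ε₁ := lt_of_lt_of_le hδ0 hA.hδ.2.1
  have hε2 : D.ε₁ ≤ 1 / 2 := (hA.hδ.2.2.trans hc₀c).trans hc'2
  have hta0 : 0 < D.ta q.1 := div_pos hkp0 hm0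
  have hj1 : 1 ≤ D.j := by have := hA.hj.1; omega
  -- U1
  have hφ : ∀ a, ‖D.ph q a‖ ≤ D.δ := by
    intro a
    have h1 : ∑ a, (‖D.ph q a‖ ^ 2 / D.δ ^ 2) ^ D.j < 1 := by
      have : D.U1 q < 1 := by linarith
      exact this
    have h2 := lt_one_of_pow_sum _ _ (fun a => by positivity) h1 a
    rw [div_lt_one (by positivity)] at h2
    exact (abs_le_of_sq_le_sq' (by linarith : ‖D.ph q a‖ ^ 2 ≤ D.δ ^ 2) hδ0.le).2
  -- U2
  have hXh : ∀ a b, ‖D.Xh q a b‖ ≤ D.δ := by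
    intro a b
    have h1 : ∑ a, ∑ b, (‖D.Xh q a b‖ ^ 2 / D.δ ^ 2) ^ D.j < 1 := by
      have : D.U2 q < 1 := by linarith
      exact this
    have h3 : ∑ b, (‖D.Xh q a b‖ ^ 2 / D.δ ^ 2) ^ D.j < 1 := by
      refine lt_of_le_of_lt ?_ h1
      exact Finset.single_le_sum (f := fun a => ∑ b, (‖D.Xh q a b‖ ^ 2 / D.δ ^ 2) ^ D.j)
        (fun a _ => Finset.sum_nonneg fun b _ => by positivity) (Finset.mem_univ a)
    have h2 := lt_one_of_pow_sum _ _ (fun b => by positivity) h3 b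
    rw [div_lt_one (by positivity)] at h2
    exact (abs_le_of_sq_le_sq' (by linarith : ‖D.Xh q a b‖ ^ 2 ≤ D.δ ^ 2) hδ0.le).2
  -- U3
  have hY : ∀ u, n2 (D.Y q *ᵥ u) ≤ D.ε₁ ^ 2 * n2 u := by
    have h1 : (Matrix.trace ((D.Y q * (D.Y q)ᴴ) ^ D.j)).re / D.ε₁ ^ (2 * D.j) < 1 := by
      have : D.U3 q < 1 := by linarith
      exact this
    rw [div_lt_one (by positivity)] at h1
    exact n2_tr _ _ _ hε0.le hj1 h1.le
  have hunit : IsUnit (1 - D.Y q).det := unit_of _ _ hε0.le (by linarith) hY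
  have hYd : D.Y q = ((D.ta q.1 : ℝ) : ℂ) • BB (D.G q) := rfl
  have hmu : ∀ a, D.mu q a = D.ph q a - D.ta q.1 * (BB (D.G q) *ᵥ D.ph q) a := by
    intro a
    have h1 : (1 - D.Y q) *ᵥ D.ph q = D.mu q := by
      simp only [Dat.ph, Dat.Th]
      rw [Matrix.mulVec_mulVec, Matrix.mul_nonsing_inv _ hunit, Matrix.one_mulVec]
    rw [← h1, Matrix.sub_mulVec, Matrix.one_mulVec, hYd, Matrix.smul_mulVec]
    rfl
  -- GDC
  have hg := hgdc (Tor d M) (D.G q) D.G0 (D.ph q) D.m D.nr (D.kp q.1) (D.ta q.1) D.δ D.N hkp0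
    (hkpw.trans hA.hT.2.2.1) hkt hA.hm.1 hA.hm.2 hδ0.le (hδc.trans hc₀c) hA.hj.2.2.2.1 hJ.hs hG0s
    hward hmu hφ hXh hA.h0 (fun a b => by simp [Dat.nr]) hA.hN
  have hC'C : C' ≤ C₀ := by rw [hC₀]; linarith
  have hCd : C₀ * D.δ ≤ 1 / 2 := by
    have h1 : C₀ * D.δ ≤ C₀ * c₀ := mul_le_mul_of_nonneg_left hδc (by linarith)
    have h2 : C₀ * c₀ ≤ C₀ * c₀ * (k₀ + 1) := by
      have : 0 ≤ C₀ * c₀ := by positivity
      nlinarith
    linarith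
  have hG := GdM.mono hg hC'C hCd
  -- rows
  have hrow : ∀ a, D.ta q.1 * ∑ b, ‖D.G q a b‖ ^ 2 ≤ 1 + C' * D.δ := by
    intro a
    have := (abs_le.1 (hg.hk a)).2
    linarith
  have hYrow : ∀ a, ∑ b, ‖D.Y q a b‖ ≤ 1 + C' * D.δ := by
    intro a
    refine le_trans (le_of_eq ?_) (hrow a)
    rw [Finset.mul_sum]
    refine Finset.sum_congr rfl fun b _ => ?_
    rw [hYd, Matrix.smul_apply, smul_eq_mul, norm_mul, Complex.norm_real, Real.norm_eq_abs,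
      abs_of_pos hta0, BB, norm_pow]
  have hpow : (1 + C' * D.δ) ^ k₀ ≤ 2 := by
    have h0 : 0 ≤ C' * D.δ := by positivity
    have h1 : (1 + C' * D.δ) ^ k₀ ≤ Real.exp (C' * D.δ) ^ k₀ :=
      pow_le_pow_left₀ (by linarith) (by linarith [Real.add_one_le_exp (C' * D.δ)]) k₀
    rw [← Real.exp_nat_mul] at h1
    have h2 : (k₀ : ℝ) * (C' * D.δ) ≤ Real.log 2 := by
      have h3 : C' * D.δ ≤ C₀ * c₀ := mul_le_mul hC'C hδc hδ0.le (by linarith)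
      have h4 : (k₀ : ℝ) * (C' * D.δ) ≤ k₀ * (C₀ * c₀) := mul_le_mul_of_nonneg_left h3 hk0
      have h5 : 0 ≤ C₀ * c₀ := by positivity
      have h6 := Real.log_two_gt_d9
      nlinarith
    calc (1 + C' * D.δ) ^ k₀ ≤ Real.exp (k₀ * (C' * D.δ)) := h1
      _ ≤ Real.exp (Real.log 2) := Real.exp_le_exp.2 h2
      _ = 2 := Real.exp_log (by norm_num)
  have hthb := hT (Tor d M) (D.Y q) D.ε₁ (C' * D.δ) k₀ hε0.le hε2 (by positivity) hpow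
    (by rw [card_tor]; exact hA.hk) hY hYrow
  -- U4
  have hLs0 : 0 < D.Ls q.1 := by
    have hL0 : 0 < D.L₀ := by linarith [hA.hj.2.2.1]
    have hN0 : 0 < D.N := by linarith [hA.hj.2.2.2.1]
    have hp0 := hA.hj.2.2.2.2
    simp only [Dat.Ls]
    have h1 : 0 ≤ D.π₀ / D.kp q.1 ^ 2 := by positivity
    have h2 : 0 ≤ D.δ ^ 4 / D.kp q.1 := by positivity
    have h3 : 0 < D.N + D.π₀ / D.kp q.1 ^ 2 + D.δ ^ 4 / D.kp q.1 := by linarith
    positivity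
  have hLa : ∀ a, D.La q a ≤ D.Ls q.1 := by
    intro a
    have h1 : ∑ a, (D.La q a / D.Ls q.1) ^ D.j < 1 := by
      have : D.U4 q < 1 := by linarith
      exact this
    have h2 := lt_one_of_pow_sum _ _ (fun a => div_nonneg
      (Finset.sum_nonneg fun b _ => by positivity) hLs0.le) h1 a
    rw [div_lt_one hLs0] at h2
    exact h2.le
  -- W
  have hKs : ∀ a b, KK (D.G q) a b = KK (D.G q) b a := fun a b => by
    simp only [KK]; rw [hJ.hs a b]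
  have hK0 : ∀ a b, 0 ≤ KK (D.G q) a b := fun a b => by simp only [KK]; positivity
  have hXd : D.X q = D.ta q.1 • Dl (KK (D.G q)) := rfl
  have hX0 : ∀ f, 0 ≤ qf (D.X q) f := fun f => by
    rw [hXd, qf_smul]
    exact mul_nonneg hta0.le (Dl_nonneg _ hKs hK0 f)
  have hXs : ∀ a b, D.X q a b = D.X q b a := fun a b => by
    rw [hXd, Matrix.smul_apply, Matrix.smul_apply, Dl_symm _ hKs a b]
  have he0 : 0 < D.e₀ := by linarith [hA.he.1, hA.he.2.1]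
  have hp1 : 1 ≤ D.p := by have := hA.hj.2.1; omega
  obtain ⟨hAu, -, -, hab, -⟩ := hW (Tor d M) (D.X q) D.S D.e₀ 1 (D.ta q.1) D.ϖ D.p hXs hX0
    hA.hS.1 hA.hS.2.1 he0 one_pos hta0.le hA.hϖ.1 hp1
  have h5 : D.U5 q ≤ 1 := by linarith
  have hAf : ∀ f, qf (D.A q.1)⁻¹ f ≤
      qf (D.X q + P0 (Tor d M) + D.ϖ • (1 : Matrix (Tor d M) (Tor d M) ℝ)) f := (hab h5).2
  refine ⟨⟨rfl, rfl, hkp, hkpw, hta0, ?_, ?_⟩, hG, hunit, ?_, hφ, hmu, hLa, ?_, hAf, h5, ?_⟩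
  · -- ta ≤ C₀ kp
    have h1 : D.ta q.1 * c₁ ≤ D.kp q.1 := by
      rw [hkt]
      exact mul_le_mul_of_nonneg_left hA.hm.1 hta0.le
    have h2 : D.ta q.1 ≤ 1 / c₁ * D.kp q.1 := by
      rw [one_div, ← div_eq_inv_mul, le_div_iff₀ hc₁]
      exact h1
    have h3 : 1 / c₁ ≤ C₀ := by rw [hC₀]; linarith
    exact h2.trans (mul_le_mul_of_nonneg_right h3 hkp0.le)
  · have h3 : C₁ ≤ C₀ := by rw [hC₀]; linarith
    rw [hkt, mul_comm]
    exact mul_le_mul_of_nonneg_right (hA.hm.2.trans h3) hta0.le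
  · intro a
    have h1 : (2 * k₀ + 1 : ℝ) ≤ C₀ := by rw [hC₀]; linarith
    exact (hthb.2 a).trans h1
  · intro u
    have h1 := hY u
    rw [hYd, Matrix.smul_mulVec] at h1
    have h2 : n2 (((D.ta q.1 : ℝ) : ℂ) • (BB (D.G q) *ᵥ u)) =
        D.ta q.1 ^ 2 * n2 (BB (D.G q) *ᵥ u) := by
      simp only [n2, Pi.smul_apply, smul_eq_mul, norm_mul, mul_pow, Complex.norm_real,
        Real.norm_eq_abs, sq_abs, Finset.mul_sum]
    rw [h2] at h1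
    rw [div_pow, div_mul_eq_mul_div, le_div_iff₀ (by positivity)]
    linarith
  · intro f hf
    have hsum : ∑ a, f a = 0 := by
      have h1 : ∑ a, (D.Pl *ᵥ f) a = ∑ a, f a := by
        simp only [Matrix.mulVec, dotProduct]
        rw [Finset.sum_comm]
        refine Finset.sum_congr rfl fun b _ => ?_
        rw [← Finset.sum_mul]
        have h2 : ∑ a, D.Pl a b = 1 := by
          rw [← hA.hP.2.2.2.1 b]
          exact Finset.sum_congr rfl fun a _ => hA.hP.1 a b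
        rw [h2, one_mul]
      rw [← h1, hf]
      simp
    have hSf : D.S *ᵥ f = 0 := by
      rw [← hA.hP.2.2.2.2, ← Matrix.mulVec_mulVec, hf, Matrix.mulVec_zero]
    have hAe : D.A q.1 *ᵥ (D.e₀⁻¹ • f) = f := by
      simp only [Dat.A]
      rw [Matrix.mulVec_smul, Matrix.add_mulVec, Matrix.smul_mulVec, Matrix.smul_mulVec,
        Matrix.one_mulVec, hSf, smul_zero, add_zero, smul_smul, inv_mul_cancel₀ he0.ne', one_smul]
    have hAi : (D.A q.1)⁻¹ *ᵥ f = D.e₀⁻¹ • f := by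
      have hAu' : IsUnit (D.A q.1).det := hAu
      have h1 : (D.A q.1)⁻¹ *ᵥ (D.A q.1 *ᵥ (D.e₀⁻¹ • f)) = D.e₀⁻¹ • f := by
        rw [Matrix.mulVec_mulVec, Matrix.nonsing_inv_mul _ hAu', Matrix.one_mulVec]
      rwa [hAe] at h1
    have h1 := hAf f
    have h2 : qf (D.A q.1)⁻¹ f = D.e₀⁻¹ * ∑ b, f b ^ 2 := by
      simp only [qf, hAi, Pi.smul_apply, smul_eq_mul, Finset.mul_sum]
      exact Finset.sum_congr rfl fun x _ => by ring
    rw [h2, qf_add, qf_add, qf_P0, hsum, qf_smul, qf_one, hXd, qf_smul, qf_Dl] at h1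
    have h3 : D.ta q.1 * (∑ a, (∑ b, KK (D.G q) a b) * f a ^ 2) ≤
        (1 + C' * D.δ) * ∑ b, f b ^ 2 := by
      rw [Finset.mul_sum, Finset.mul_sum]
      refine Finset.sum_le_sum fun a _ => ?_
      rw [← mul_assoc]
      exact mul_le_mul_of_nonneg_right (hrow a) (sq_nonneg _)
    have hS2 : 0 ≤ ∑ b, f b ^ 2 := Finset.sum_nonneg fun b _ => sq_nonneg _
    have h4 : 1 - D.e₀⁻¹ ≤ D.e₀ - 1 := by
      have h5 : 1 ≤ D.e₀ := by linarith [hA.he.1, hA.he.2.1]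
      have h6 : D.e₀⁻¹ * D.e₀ = 1 := inv_mul_cancel₀ he0.ne'
      have h7 : 0 < D.e₀⁻¹ := inv_pos.2 he0
      nlinarith [mul_nonneg h7.le (sq_nonneg (D.e₀ - 1))]
    have h5 : D.ϖ ≤ D.δ := hA.hϖ.2.1
    have h6 : (C' + 1) * D.δ ≤ C₀ * D.δ :=
      mul_le_mul_of_nonneg_right (by rw [hC₀]; linarith) hδ0.le
    have h7 : D.ta q.1 * qf (KK (D.G q)) f ≤
        ((1 + C' * D.δ) + D.ϖ - D.e₀⁻¹) * ∑ b, f b ^ 2 := by
      linarith
    refine h7.trans (mul_le_mul_of_nonneg_right ?_ hS2)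
    linarith

end Pool.Agent.LE.QF.H5
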