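import Pool.Agent.Helper5_LQF.GOD

/-! # UPR: the probability of the bad event -/

set_option autoImplicit false

open MeasureTheory ProbabilityTheory Function Filter

open scoped ENNReal BigOperators Topology NNReal ComplexOrder Matrix

noncomputable section

namespace Pool.Agent.LE.QF.H5

open Pool.Agent.Anderson hiding box mem_box card_box
open Pool.Agent.Loc Pool.Agent.Mob Pool.Agent.Helper54.Bal
  Pool.Agent.Helper96.EXP Pool.Agent.BED
open Pool.Agent.LE.MN Pool.Agent.LE.CL Pool.Agent.LE.IR Pool.Agent.LE.QD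

section Calc

variable {ι : Type} [Fintype ι] [DecidableEq ι]

theorem dC_diff {F : ℝ × (ι → ℝ) → ℝ} {q : ℝ × (ι → ℝ)} (hF : ContDiffAt ℝ 2 F q) (c : ι) :
    DifferentiableAt ℝ (dC c F) q := by
  have h1 : ContDiffAt ℝ 1 (fderiv ℝ F) q := hF.fderiv_right (by norm_num)
  exact (h1.differentiableAt (by norm_num)).clm_apply (differentiableAt_const _)

theorem LL_add (F H : ℝ × (ι → ℝ) → ℝ) (q : ℝ × (ι → ℝ)) (hF : ContDiffAt ℝ 2 F q)
    (hH : ContDiffAt ℝ 2 H q) : LL (fun r => F r + H r) q = LL F q + LL H q := by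
  have hF1 := hF.differentiableAt (by norm_num)
  have hH1 := hH.differentiableAt (by norm_num)
  have hFe : ∀ᶠ y in 𝓝 q, DifferentiableAt ℝ F y :=
    (hF.eventually (by norm_num)).mono fun y hy => hy.differentiableAt (by norm_num)
  have hHe : ∀ᶠ y in 𝓝 q, DifferentiableAt ℝ H y :=
    (hH.eventually (by norm_num)).mono fun y hy => hy.differentiableAt (by norm_num)
  have h1 : ∀ c : ι, dC c (dC c fun r => F r + H r) q = dC c (dC c F) q + dC c (dC c H) q := by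
    intro c
    have h2 : (dC c fun r => F r + H r) =ᶠ[𝓝 q] fun y => dC c F y + dC c H y := by
      filter_upwards [hFe, hHe] with y h3 h4
      simp only [dC]
      rw [fderiv_fun_add h3 h4]
      rfl
    show fderiv ℝ (dC c fun r => F r + H r) q (0, Pi.single c 1) = _
    rw [h2.fderiv_eq, fderiv_fun_add (dC_diff hF c) (dC_diff hH c)]
    rfl
  simp only [LL, h1, fderiv_fun_add hF1 hH1, Finset.sum_add_distrib, smul_eq_mul,
    ContinuousLinearMap.add_apply]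
  ring

end Calc

section Tr

variable {X : Type} [Fintype X] [DecidableEq X]

theorem n2_pow (P : Matrix X X ℂ) (c : ℝ) (h : ∀ u, n2 (P *ᵥ u) ≤ c * n2 u) (hc : 0 ≤ c) (j : ℕ)
    (u : X → ℂ) : n2 ((P ^ j) *ᵥ u) ≤ c ^ j * n2 u := by
  induction j generalizing u with
  | zero => simp
  | succ j ih =>
    rw [pow_succ, ← Matrix.mulVec_mulVec]
    refine (ih _).trans ?_
    rw [pow_succ, mul_assoc]
    exact mul_le_mul_of_nonneg_left (h u) (pow_nonneg hc j)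

theorem tr_le (Y : Matrix X X ℂ) (c : ℝ) (hc : 0 ≤ c) (h : ∀ u, n2 (Y *ᵥ u) ≤ c ^ 2 * n2 u)
    (j : ℕ) : (Matrix.trace ((Y * Yᴴ) ^ j)).re ≤ Fintype.card X * c ^ (2 * j) := by
  have h1 : ∀ u, n2 ((Y * Yᴴ) *ᵥ u) ≤ c ^ 4 * n2 u := by
    intro u
    rw [← Matrix.mulVec_mulVec]
    refine (h _).trans ?_
    have h2 := n2_adj Y c h u
    calc c ^ 2 * n2 (Yᴴ *ᵥ u) ≤ c ^ 2 * (c ^ 2 * n2 u) :=
          mul_le_mul_of_nonneg_left h2 (by positivity)
      _ = c ^ 4 * n2 u := by ring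
  have h2 : ∀ a, ‖((Y * Yᴴ) ^ j) a a‖ ≤ c ^ (2 * j) := by
    intro a
    have h3 := n2_pow (Y * Yᴴ) (c ^ 4) h1 (by positivity) j (Pi.single a 1)
    have h4 := entry_le (((Y * Yᴴ) ^ j) *ᵥ Pi.single a 1) a
    have h5 : n2 (Pi.single a (1 : ℂ)) = 1 := by
      simp only [n2]
      rw [Finset.sum_eq_single a]
      · simp
      · intro b _ hb
        simp [hb]
      · simp
    rw [h5, mul_one] at h3
    have h6 : (((Y * Yᴴ) ^ j) *ᵥ Pi.single a 1) a = ((Y * Yᴴ) ^ j) a a := by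
      rw [Matrix.mulVec_single_one]
      rfl
    rw [h6] at h4
    have h7 : ‖((Y * Yᴴ) ^ j) a a‖ ^ 2 ≤ (c ^ (2 * j)) ^ 2 := by
      refine (h4.trans h3).trans (le_of_eq ?_)
      rw [← pow_mul, ← pow_mul]
      congr 1
      ring
    exact (abs_le_of_sq_le_sq' h7 (by positivity)).2
  calc (Matrix.trace ((Y * Yᴴ) ^ j)).re ≤ ‖Matrix.trace ((Y * Yᴴ) ^ j)‖ := Complex.re_le_norm _
    _ ≤ ∑ a, ‖((Y * Yᴴ) ^ j) a a‖ := norm_sum_le _ _
    _ ≤ ∑ _a : X, c ^ (2 * j) := Finset.sum_le_sum fun a _ => h2 a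
    _ = Fintype.card X * c ^ (2 * j) := by
      rw [Finset.sum_const, Finset.card_univ, nsmul_eq_mul]

end Tr

variable {d M : ℕ} [NeZero M]

theorem aN_nonneg {D : Dat d M} {c₁ C₁ c₀ : ℝ} {k₀ : ℕ} (hA : Adm D c₁ C₁ c₀ k₀)
    (hw : 0 ≤ D.w) : 0 ≤ D.aN := by
  have h1 := hA.hδ.1
  have h2 : 0 < D.ε₁ := lt_of_lt_of_le h1 hA.hδ.2.1
  have h3 : 0 < D.L₀ := by linarith [hA.hj.2.2.1]
  have h4 : 0 < D.N := by linarith [hA.hj.2.2.2.1]
  have h5 := hA.hj.2.2.2.2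
  have h6 := hA.hT.2.1
  have h7 : 0 ≤ D.e₀ - 1 := by linarith [hA.he.1, hA.he.2.1]
  have h8 : 0 ≤ D.ch := by
    simp only [Dat.ch]
    have : 0 ≤ D.N * D.w := mul_nonneg h4.le hw
    have : 0 ≤ D.π₀ / D.η := div_nonneg h5 h6.le
    positivity
  have h9 : 0 ≤ D.N * D.w := mul_nonneg h4.le hw
  simp only [Dat.aN]
  have h10 : 0 ≤ D.π₀ / D.η := div_nonneg h5 h6.le
  positivity

/-- the integral of `1 / κ` -/
theorem int_kp {D : Dat d M} (hη : 0 < D.η) (hm : 0 < D.m.im) (hT : 0 < D.T) :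
    ∫ t in (0 : ℝ)..D.T, 1 / max (D.kp t) D.η = Real.log (D.w / D.η) / D.m.im := by
  have hk : ∀ t, t ≤ D.T → D.η ≤ D.kp t := by
    intro t ht
    have h1 : 0 ≤ (D.T - t) * D.m.im := mul_nonneg (sub_nonneg.2 ht) hm.le
    simp only [Dat.kp]
    linarith
  have hcont : Continuous fun t => 1 / max (D.kp t) D.η := by
    have h1 : Continuous D.kp := by
      show Continuous fun t => D.η + (D.T - t) * D.m.im
      fun_prop
    exact continuous_const.div (h1.max continuous_const)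
      fun t => (lt_of_lt_of_le hη (le_max_right _ _)).ne'
  have h1 : ∀ t ∈ Set.uIcc 0 D.T, HasDerivAt (fun t => -(Real.log (D.kp t) / D.m.im))
      (1 / max (D.kp t) D.η) t := by
    intro t ht
    rw [Set.uIcc_of_le hT.le] at ht
    have h2 := hk t ht.2
    have h3 : 0 < D.kp t := lt_of_lt_of_le hη h2
    rw [max_eq_left h2]
    have h4 : HasDerivAt D.kp (-D.m.im) t := by
      have h5 : HasDerivAt (fun t => D.η + (D.T - t) * D.m.im) ((0 - 1) * D.m.im) t :=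
        (((hasDerivAt_const t D.T).sub (hasDerivAt_id t)).mul_const D.m.im).const_add D.η
      rw [zero_sub, neg_one_mul] at h5
      exact h5
    have h5 := ((h4.log h3.ne').div_const D.m.im).neg
    have h6 : -(-D.m.im / D.kp t / D.m.im) = 1 / D.kp t := by
      field_simp
    rw [h6] at h5
    exact h5
  rw [intervalIntegral.integral_eq_sub_of_hasDerivAt h1 (hcont.intervalIntegrable _ _)]
  have h2 : D.kp D.T = D.η := by simp [Dat.kp]
  have hw0 : 0 < D.w := lt_of_lt_of_le hη (hk 0 hT.le)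
  rw [h2, Real.log_div hw0.ne' hη.ne']
  simp only [Dat.w]
  ring

/-- the initial value of the functional -/
theorem init {D : Dat d M} {c₁ C₁ c₀ : ℝ} {k₀ : ℕ} (hc₁ : 0 < c₁) (hA : Adm D c₁ C₁ c₀ k₀)
    (hW : WabStmt) (hR : RsjStmt) : D.U (0, 0) ≤ D.bN := by
  have hkp := kp_pos hc₁ hA hA.hT.1.le
  have hη := hA.hT.2.1
  have hkp0 : 0 < D.kp 0 := lt_of_lt_of_le hη hkp
  obtain ⟨hJ, -, -, -, -, -, -⟩ := hR d M D c₁ C₁ c₀ k₀ (0, 0) hc₁ hA hkp0
  have hm0 : 0 < D.m.im := lt_of_lt_of_le hc₁ hA.hm.1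
  have hta0 : 0 < D.ta 0 := div_pos hkp0 hm0
  have hδ0 := hA.hδ.1
  have hε0 : 0 < D.ε₁ := lt_of_lt_of_le hδ0 hA.hδ.2.1
  have hj1 : D.j ≠ 0 := by have := hA.hj.1; omega
  have hp1 : 1 ≤ D.p := by have := hA.hj.2.1; omega
  have hmu : D.mu (0, 0) = 0 := by
    funext a
    have h1 := hA.hfix a
    show D.G0 a a - D.m = 0
    rw [h1, sub_self]
  have hph : D.ph (0, 0) = 0 := by
    show D.Th (0, 0) *ᵥ D.mu (0, 0) = 0
    rw [hmu, Matrix.mulVec_zero]
  have hXh : ∀ a b, D.Xh (0, 0) a b = 0 := by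
    intro a b
    have h1 : D.Xh (0, 0) = D.G0 + (D.ta 0 : ℂ) • GD D.G0 (D.ph (0, 0)) - D.G0 := rfl
    have h2 : GD D.G0 (0 : Tor d M → ℂ) = 0 := by
      simp only [GD]
      have : (Matrix.diagonal (0 : Tor d M → ℂ)) = 0 := by
        ext a b
        by_cases hab : a = b
        · subst hab; simp
        · simp [hab]
      rw [this, mul_zero, zero_mul]
    rw [h1, hph, h2, smul_zero, add_zero, sub_self]
    rfl
  have h1 : D.U1 (0, 0) = 0 := by
    simp only [Dat.U1, hph, Pi.zero_apply, norm_zero]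
    simp [hj1]
  have h2 : D.U2 (0, 0) = 0 := by
    simp only [Dat.U2, hXh, norm_zero]
    simp [hj1]
  have hcard : (0 : ℝ) < (M : ℝ) ^ d := by
    have : (0 : ℝ) < M := Nat.cast_pos.2 (NeZero.pos M)
    positivity
  have h3 : D.U3 (0, 0) ≤ (M : ℝ) ^ d * (1 / 4) ^ D.j := by
    have h4 : (Matrix.trace ((D.Y (0, 0) * (D.Y (0, 0))ᴴ) ^ D.j)).re ≤
        Fintype.card (Tor d M) * (D.ε₁ / 2) ^ (2 * D.j) :=
      tr_le (D.Y (0, 0)) (D.ε₁ / 2) (by positivity) hA.hY D.j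
    simp only [Dat.U3]
    rw [div_le_iff₀ (by positivity)]
    refine h4.trans (le_of_eq ?_)
    rw [card_tor, div_pow, pow_mul 2 2 D.j, one_div, inv_pow]
    norm_num
    ring
  have hLs0 : 0 < D.Ls 0 := by
    have hL0 : 0 < D.L₀ := by linarith [hA.hj.2.2.1]
    have hN0 : 0 < D.N := by linarith [hA.hj.2.2.2.1]
    have hp0 := hA.hj.2.2.2.2
    simp only [Dat.Ls]
    have h1 : 0 ≤ D.π₀ / D.kp 0 ^ 2 := by positivity
    have h2 : 0 ≤ D.δ ^ 4 / D.kp 0 := by positivity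
    have h3 : 0 < D.N + D.π₀ / D.kp 0 ^ 2 + D.δ ^ 4 / D.kp 0 := by linarith
    positivity
  have h4 : D.U4 (0, 0) ≤ (M : ℝ) ^ d * (1 / 4) ^ D.j := by
    have h5 : ∀ a, (D.La (0, 0) a / D.Ls 0) ^ D.j ≤ (1 / 4) ^ D.j := by
      intro a
      have h6 : 4 * D.La (0, 0) a ≤ D.Ls 0 := hA.hL a
      refine pow_le_pow_left₀ (div_nonneg (Finset.sum_nonneg fun b _ => by positivity) hLs0.le) ?_ _
      rw [div_le_iff₀ hLs0]
      linarith
    calc D.U4 (0, 0) = ∑ a, (D.La (0, 0) a / D.Ls 0) ^ D.j := rfl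
      _ ≤ ∑ _a : Tor d M, (1 / 4 : ℝ) ^ D.j := Finset.sum_le_sum fun a _ => h5 a
      _ = _ := by rw [Finset.sum_const, Finset.card_univ, nsmul_eq_mul, card_tor]
  have h5 : D.U5 (0, 0) ≤ (M : ℝ) ^ d * (1 / D.e₁) ^ D.p := by
    have hKs : ∀ a b, KK (D.G (0, 0)) a b = KK (D.G (0, 0)) b a := fun a b => by
      simp only [KK]; rw [hJ.hs a b]
    have hK0 : ∀ a b, 0 ≤ KK (D.G (0, 0)) a b := fun a b => by simp only [KK]; positivity
    have hXd : D.X (0, 0) = D.ta 0 • Dl (KK (D.G (0, 0))) := rfl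
    have hX0 : ∀ f, 0 ≤ qf (D.X (0, 0)) f := fun f => by
      rw [hXd, qf_smul]
      exact mul_nonneg hta0.le (Dl_nonneg _ hKs hK0 f)
    have hXs : ∀ a b, D.X (0, 0) a b = D.X (0, 0) b a := fun a b => by
      rw [hXd, Matrix.smul_apply, Matrix.smul_apply, Dl_symm _ hKs a b]
    have he0 : 0 < D.e₀ := by linarith [hA.he.1, hA.he.2.1]
    have he1 : 0 < D.e₁ := by linarith [hA.he.1]
    obtain ⟨-, -, -, -, h6⟩ := hW (Tor d M) (D.X (0, 0)) D.S D.e₀ D.e₁ (D.ta 0) D.ϖ D.p hXs hX0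
      hA.hS.1 hA.hS.2.1 he0 he1 hta0.le hA.hϖ.1 hp1
    have h7 := h6 (fun f => by
      have h8 : D.e₁ * qf (D.A 0)⁻¹ f ≤ qf (D.X (0, 0) + P0 (Tor d M)) f := hA.hW f
      rw [qf_add _ (D.ϖ • (1 : Matrix (Tor d M) (Tor d M) ℝ)), qf_smul, qf_one]
      have h9 : 0 ≤ D.ϖ * ∑ a, f a ^ 2 :=
        mul_nonneg hA.hϖ.1.le (Finset.sum_nonneg fun b _ => sq_nonneg _)
      have h10 : D.e₁ * qf (D.e₀ • (1 : Matrix (Tor d M) (Tor d M) ℝ) + D.ta 0 • D.S)⁻¹ f ≤
        qf (D.X (0, 0) + P0 (Tor d M)) f := h8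
      linarith)
    rw [card_tor] at h7
    exact h7
  have h6 : D.U (0, 0) = D.U1 (0, 0) + D.U2 (0, 0) + D.U3 (0, 0) + D.U4 (0, 0) + D.U5 (0, 0) := rfl
  have hM1 : (1 : ℝ) ≤ (M : ℝ) ^ d := by
    have : (1 : ℝ) ≤ M := by exact_mod_cast NeZero.one_le
    exact one_le_pow₀ this
  have he1 : 0 < D.e₁ := by linarith [hA.he.1]
  have h7 : 0 ≤ (1 / 4 : ℝ) ^ D.j := by positivity
  have h8 : 0 ≤ (1 / D.e₁) ^ D.p := by positivity
  have h9 : (M : ℝ) ^ d ≤ ((M : ℝ) ^ d) ^ 2 := by nlinarith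
  rw [h6, h1, h2]
  simp only [Dat.bN]
  have h10 := mul_le_mul_of_nonneg_right h9 h7
  have h11 := mul_le_mul_of_nonneg_right h9 h8
  have h12 : 0 ≤ ((M : ℝ) ^ d) ^ 2 * (1 / D.e₁) ^ D.p := by positivity
  linarith

theorem upr (hUf : UflStmt) (hUs : UsmStmt) (hN : NnuStmt) (hG : GodStmt) (hUa : UpaStmt)
    (hUb : UpbStmt) (hUc : UpcStmt) (hUd : UpdStmt) (hW : WabStmt) (hR : RsjStmt) : UprStmt := by
  intro c₁ C₁ k₀ hc₁ hC₁
  obtain ⟨cg, C₀, hcg0, hcg2, hC₀, hgod⟩ := hG c₁ C₁ k₀ hc₁ hC₁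
  obtain ⟨Ca, hCa, ha⟩ := hUa c₁ C₁ C₀ k₀ hc₁ hC₁ hC₀
  obtain ⟨Cb, hCb, hb⟩ := hUb c₁ C₁ C₀ k₀ hc₁ hC₁ hC₀
  obtain ⟨Cc, hCc, hc⟩ := hUc c₁ C₁ C₀ k₀ hc₁ hC₁ hC₀
  obtain ⟨c₂, Cd, hc₂, hCd, hd⟩ := hUd c₁ C₁ C₀ k₀ hc₁ hC₁ hC₀
  obtain ⟨Cm, hCm⟩ : ∃ Cm : ℝ, Cm = Ca + Cb + Cc + Cd := ⟨_, rfl⟩
  have hCm0 : 0 < Cm := by rw [hCm]; linarith
  have hCq : 0 < Cm / c₁ := by positivity
  refine ⟨min cg c₂, 3 + 6 * (Cm / c₁), lt_min hcg0 hc₂, (min_le_left _ _).trans hcg2,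
    by linarith, ?_⟩
  intro d M _ D v hA hv
  have hAg : Adm D c₁ C₁ cg k₀ := Adm.mono hA (min_le_left _ _)
  have hη := hA.hT.2.1
  have hT0 := hA.hT.1
  have hm0 : 0 < D.m.im := lt_of_lt_of_le hc₁ hA.hm.1
  have hwη : D.η ≤ D.w := kp_pos hc₁ hA hT0.le
  have hw0 : 0 < D.w := lt_of_lt_of_le hη hwη
  have haN := aN_nonneg hA hw0.le
  have he1 : 0 < D.e₁ := by linarith [hA.he.1]
  have hbN : 0 ≤ D.bN := by simp only [Dat.bN]; positivity
  have hp0 : (0 : ℝ) ≤ D.p := Nat.cast_nonneg _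
  obtain ⟨L, hL⟩ : ∃ L : ℝ, L = Real.log (D.w / D.η) := ⟨_, rfl⟩
  have hL0 : 0 ≤ L := by
    rw [hL]
    exact Real.log_nonneg ((one_le_div hη).2 hwη)
  have hint := int_kp hη hm0 hT0
  have hkc : Continuous D.kp := by
    show Continuous fun t => D.η + (D.T - t) * D.m.im
    fun_prop
  have hden : ∀ t, 0 < max (D.kp t) D.η := fun t => lt_of_lt_of_le hη (le_max_right _ _)
  have hcont : Continuous fun t => 1 / max (D.kp t) D.η :=
    continuous_const.div (hkc.max continuous_const) fun t => (hden t).ne'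
  have hM1 : (1 : ℝ) ≤ (M : ℝ) ^ d := by
    have : (1 : ℝ) ≤ M := by exact_mod_cast NeZero.one_le
    exact one_le_pow₀ this
  have hmain := hUf (Tor d M) D.T (fun t => Cm * D.aN * (1 / max (D.kp t) D.η))
    (fun t => Cm * (2 * D.aN + D.p) * D.bN * (1 / max (D.kp t) D.η)) D.U hT0
    (continuous_const.mul hcont) (continuous_const.mul hcont)
    (fun t => ⟨by have := hden t; positivity, by have := hden t; positivity⟩) ?_
  · have hv' : v = D.T.toNNReal := by rw [← hv, Real.toNNReal_coe]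
    have hg : gau d M v = Measure.pi fun _ : Tor d M => gaussianReal 0 D.T.toNNReal := by
      rw [← hv']
      rfl
    rw [hg]
    refine hmain.trans (ENNReal.ofReal_le_ofReal ?_)
    rw [intervalIntegral.integral_const_mul, intervalIntegral.integral_const_mul, hint, ← hL]
    have hI : L / D.m.im ≤ L / c₁ := div_le_div_of_nonneg_left hL0 hc₁ hA.hm.1
    have hI0 : 0 ≤ L / D.m.im := div_nonneg hL0 hm0.le
    have hI1 : L / D.m.im ≤ (1 + L) / c₁ := hI.trans (by gcongr; linarith)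
    have h1 : 3 * (Cm * D.aN * (L / D.m.im)) ≤ (3 + 6 * (Cm / c₁)) * D.aN * (1 + L) := by
      have h2 : Cm * D.aN * (L / D.m.im) ≤ Cm * D.aN * ((1 + L) / c₁) :=
        mul_le_mul_of_nonneg_left hI1 (by positivity)
      have h3 : Cm * D.aN * ((1 + L) / c₁) = (Cm / c₁) * (D.aN * (1 + L)) := by ring
      have h4 : 0 ≤ D.aN * (1 + L) := by positivity
      have h5 : 0 ≤ (Cm / c₁) * (D.aN * (1 + L)) := by positivity
      calc 3 * (Cm * D.aN * (L / D.m.im)) ≤ 3 * ((Cm / c₁) * (D.aN * (1 + L))) := by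
            rw [← h3]; linarith
        _ ≤ (3 + 6 * (Cm / c₁)) * D.aN * (1 + L) := by linarith
    have h6 : 3 * D.U (0, 0) + 3 * (Cm * (2 * D.aN + D.p) * D.bN * (L / D.m.im)) ≤
        (3 + 6 * (Cm / c₁)) * (1 + D.aN + D.p) * (1 + L) * D.bN := by
      have h7 := init hc₁ hA hW hR
      have h8 : Cm * (2 * D.aN + D.p) * D.bN * (L / D.m.im) ≤
          Cm * (2 * D.aN + D.p) * D.bN * ((1 + L) / c₁) :=
        mul_le_mul_of_nonneg_left hI1 (by positivity)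
      have h9 : Cm * (2 * D.aN + D.p) * D.bN * ((1 + L) / c₁) =
          (Cm / c₁) * ((2 * D.aN + D.p) * (1 + L) * D.bN) := by ring
      have h10 : (2 * D.aN + D.p) * (1 + L) * D.bN ≤ 2 * ((1 + D.aN + D.p) * (1 + L) * D.bN) := by
        have h11 : 0 ≤ (1 + L) * D.bN := by positivity
        have h12 : 2 * D.aN + D.p ≤ 2 * (1 + D.aN + D.p) := by linarith
        have h13 := mul_le_mul_of_nonneg_right h12 h11
        linarith
      have h14 : (Cm / c₁) * ((2 * D.aN + D.p) * (1 + L) * D.bN) ≤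
          (Cm / c₁) * (2 * ((1 + D.aN + D.p) * (1 + L) * D.bN)) :=
        mul_le_mul_of_nonneg_left h10 hCq.le
      have h15 : D.bN ≤ (1 + D.aN + D.p) * (1 + L) * D.bN := by
        have h16 : 1 ≤ (1 + D.aN + D.p) * (1 + L) := by
          have h17 : 0 ≤ (D.aN + D.p) * (1 + L) := by positivity
          nlinarith
        exact le_mul_of_one_le_left hbN h16
      linarith
    have h7 : 0 ≤ 3 * D.U (0, 0) + 3 * (Cm * (2 * D.aN + D.p) * D.bN * (L / D.m.im)) := by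
      have hkp0 : 0 < D.kp 0 := hw0
      obtain ⟨k1, k2, k3, k4, k5⟩ := hN d M D c₁ C₁ _ k₀ (0, 0) hc₁ hA hkp0
      have h8 : D.U (0, 0) =
        D.U1 (0, 0) + D.U2 (0, 0) + D.U3 (0, 0) + D.U4 (0, 0) + D.U5 (0, 0) := rfl
      have h9 : 0 ≤ Cm * (2 * D.aN + D.p) * D.bN * (L / D.m.im) := by positivity
      linarith
    exact mul_le_mul (Real.exp_le_exp.2 h1) h6 h7 (Real.exp_pos _).le
  · intro q hq0 hqT
    have hkη := kp_pos hc₁ hA hqT
    have hkp0 : 0 < D.kp q.1 := lt_of_lt_of_le hη hkη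
    obtain ⟨k1, k2, k3, k4, k5⟩ := hN d M D c₁ C₁ _ k₀ q hc₁ hA hkp0
    have hUq : D.U q = D.U1 q + D.U2 q + D.U3 q + D.U4 q + D.U5 q := rfl
    refine ⟨by rw [hUq]; linarith, ?_⟩
    rcases hUs d M D c₁ C₁ _ k₀ q hc₁ ((min_le_left _ _).trans hcg2) hA hq0 hqT with h1 | h1
    · exact Or.inl h1
    · refine Or.inr ⟨h1, fun hU1 => ?_⟩
      have hgo := hgod d M D q hAg hq0 hqT hU1
      obtain ⟨a1, a2, a3, a4⟩ := ha d M D _ _ _ q hA hq0 hqT hgo
      obtain ⟨b1, b2⟩ := hb d M D _ _ _ q ((min_le_left _ _).trans hcg2) hA hq0 hqT hgo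
      obtain ⟨e1, e2⟩ := hc d M D _ _ _ q hA hq0 hqT hgo
      obtain ⟨g1, g2⟩ := hd d M D _ _ _ q (min_le_right _ _) hA hq0 hqT hgo
      have hLL : LL D.U q = LL D.U1 q + LL D.U2 q + LL D.U3 q + LL D.U4 q + LL D.U5 q := by
        have i1 := LL_add D.U1 D.U2 q a1 a2
        have i2 := LL_add (fun r => D.U1 r + D.U2 r) D.U3 q (a1.add a2) b1
        have i3 := LL_add (fun r => D.U1 r + D.U2 r + D.U3 r) D.U4 q ((a1.add a2).add b1) e1
        have i4 := LL_add (fun r => D.U1 r + D.U2 r + D.U3 r + D.U4 r) D.U5 q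
          (((a1.add a2).add b1).add e1) g1
        rw [i1] at i2
        rw [i2] at i3
        rw [i3] at i4
        exact i4
      have hmx : max (D.kp q.1) D.η = D.kp q.1 := max_eq_left hkη
      show LL D.U q ≤ Cm * D.aN * (1 / max (D.kp q.1) D.η) * D.U q +
        Cm * (2 * D.aN + D.p) * D.bN * (1 / max (D.kp q.1) D.η)
      rw [hmx, hLL, hUq]
      obtain ⟨κ, hκ⟩ : ∃ κ : ℝ, κ = 1 / D.kp q.1 := ⟨_, rfl⟩
      have hκ0 : 0 < κ := by rw [hκ]; positivity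
      obtain ⟨A, hAd⟩ : ∃ A : ℝ, A = ((M : ℝ) ^ d) ^ 2 * (1 / 4) ^ D.j := ⟨_, rfl⟩
      have hA0 : 0 ≤ A := by rw [hAd]; positivity
      obtain ⟨B, hBd⟩ : ∃ B : ℝ, B = (M : ℝ) ^ d * (1 / D.e₀) ^ D.p := ⟨_, rfl⟩
      have he0 : 0 < D.e₀ := by linarith [hA.he.1, hA.he.2.1]
      have hB0 : 0 ≤ B := by rw [hBd]; positivity
      have hbB : A + B ≤ D.bN / 2 := by
        have j1 : (1 / D.e₀) ^ D.p ≤ (1 / D.e₁) ^ D.p :=
          pow_le_pow_left₀ (by positivity) (one_div_le_one_div_of_le he1 hA.he.2.1) _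
        have j2 : (M : ℝ) ^ d ≤ ((M : ℝ) ^ d) ^ 2 := by nlinarith
        have j3 : B ≤ ((M : ℝ) ^ d) ^ 2 * (1 / D.e₁) ^ D.p := by
          rw [hBd]
          exact mul_le_mul j2 j1 (by positivity) (by positivity)
        have j4 : D.bN / 2 = A + ((M : ℝ) ^ d) ^ 2 * (1 / D.e₁) ^ D.p := by
          rw [hAd]
          simp only [Dat.bN]
          ring
        linarith
      have tr : ∀ C V Z : ℝ, 1 ≤ C → C ≤ Cm → 0 ≤ V → 0 ≤ Z →
          C * D.aN / D.kp q.1 * (V + Z) ≤ Cm * D.aN * κ * (V + Z) := by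
        intro C V Z hC1 hCC hV hZ
        have j1 : C * D.aN / D.kp q.1 = C * D.aN * κ := by rw [hκ]; ring
        rw [j1]
        have j2 : C * D.aN ≤ Cm * D.aN := mul_le_mul_of_nonneg_right hCC haN
        have j3 := mul_le_mul_of_nonneg_right j2 hκ0.le
        exact mul_le_mul_of_nonneg_right j3 (by linarith)
      rw [← hAd] at a3 a4 b2 e2
      rw [← hBd] at g2
      have r1 := a3.trans (tr Ca (D.U1 q) A hCa (by rw [hCm]; linarith) k1 hA0)
      have r2 := a4.trans (tr Ca (D.U2 q) A hCa (by rw [hCm]; linarith) k2 hA0)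
      have r3 := b2.trans (tr Cb (D.U3 q) A hCb (by rw [hCm]; linarith) k3 hA0)
      have r4 := e2.trans (tr Cc (D.U4 q) A hCc (by rw [hCm]; linarith) k4 hA0)
      have r5 := tr Cd (D.U5 q) B hCd (by rw [hCm]; linarith) k5 hB0
      have r6 : Cd * D.p / D.kp q.1 * B ≤ Cm * D.p * κ * B := by
        have j1 : Cd * D.p / D.kp q.1 = Cd * D.p * κ := by rw [hκ]; ring
        rw [j1]
        have j2 : Cd * D.p ≤ Cm * D.p :=
          mul_le_mul_of_nonneg_right (by rw [hCm]; linarith) hp0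
        exact mul_le_mul_of_nonneg_right (mul_le_mul_of_nonneg_right j2 hκ0.le) hB0
      rw [← hκ]
      have j5 : 0 ≤ Cm * D.aN * κ := by positivity
      have j6 : 0 ≤ Cm * D.p * κ := by positivity
      have j7 : Cm * D.aN * κ * (4 * A + B) ≤ Cm * D.aN * κ * (2 * D.bN) :=
        mul_le_mul_of_nonneg_left (by linarith) j5
      have j8 : Cm * D.p * κ * B ≤ Cm * D.p * κ * D.bN :=
        mul_le_mul_of_nonneg_left (by linarith) j6
      calc LL D.U1 q + LL D.U2 q + LL D.U3 q + LL D.U4 q + LL D.U5 q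
          ≤ Cm * D.aN * κ * (D.U1 q + A) + Cm * D.aN * κ * (D.U2 q + A) +
            Cm * D.aN * κ * (D.U3 q + A) + Cm * D.aN * κ * (D.U4 q + A) +
            (Cm * D.aN * κ * (D.U5 q + B) + Cm * D.p * κ * B) := by linarith
        _ = Cm * D.aN * κ * (D.U1 q + D.U2 q + D.U3 q + D.U4 q + D.U5 q) +
            (Cm * D.aN * κ * (4 * A + B) + Cm * D.p * κ * B) := by ring
        _ ≤ Cm * D.aN * κ * (D.U1 q + D.U2 q + D.U3 q + D.U4 q + D.U5 q) +
            (Cm * D.aN * κ * (2 * D.bN) + Cm * D.p * κ * D.bN) := by linarith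
        _ = _ := by ring

end Pool.Agent.LE.QF.H5
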